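import Pool.Agent.N600.L3.Stm

/-!
# Project L3 (helper600): the size of the constant (helper527)
-/

set_option autoImplicit false

namespace Pool.Agent.N527.L3

open Pool.Agent.N600.L3

theorem phi_key {k : ℝ} (hk : 0 ≤ k) :
    min 1 k / 8 ≤ -Real.log ((3 + Real.exp (-(1 - Real.exp (-(2 * k))))) / 4) := by
  obtain ⟨s, hs⟩ : ∃ s, s = 4 / 5 * min 1 k := ⟨_, rfl⟩
  have hs0 : 0 ≤ s := by
    rw [hs]
    have : 0 ≤ min 1 k := le_min zero_le_one hk
    positivity
  have hs1 : s ≤ 4 / 5 := by
    rw [hs]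
    have := min_le_left 1 k
    linarith
  have inv : ∀ x : ℝ, 0 ≤ x → Real.exp (-x) * (1 + x + x ^ 2 / 2) ≤ 1 := by
    intro x hx
    have h1 := Real.quadratic_le_exp_of_nonneg hx
    have h2 : Real.exp (-x) * Real.exp x = 1 := by
      rw [← Real.exp_add]
      simp
    have h3 := Real.exp_pos (-x)
    nlinarith
  -- the number t
  have ht : s ≤ 1 - Real.exp (-(2 * k)) := by
    rcases le_total k 1 with h | h
    · have h1 := inv (2 * k) (by linarith)
      have h2 : s = 4 / 5 * k := by rw [hs, min_eq_right h]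
      have h3 := Real.exp_pos (-(2 * k))
      have h4 : 1 ≤ (1 - s) * (1 + 2 * k + (2 * k) ^ 2 / 2) := by
        rw [h2]
        nlinarith [mul_nonneg hk (sub_nonneg.2 h), mul_nonneg (mul_nonneg hk hk) (sub_nonneg.2 h)]
      have h5 : 0 < 1 + 2 * k + (2 * k) ^ 2 / 2 := by positivity
      have h6 : Real.exp (-(2 * k)) ≤ 1 - s := by
        by_contra hc
        push Not at hc
        nlinarith
      linarith
    · have h1 := inv 2 (by norm_num)
      have h2 : s = 4 / 5 := by rw [hs, min_eq_left h, mul_one]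
      have h3 : Real.exp (-(2 * k)) ≤ Real.exp (-2) := Real.exp_le_exp.2 (by linarith)
      linarith
  have h1 : Real.exp (-(1 - Real.exp (-(2 * k)))) ≤ Real.exp (-s) :=
    Real.exp_le_exp.2 (by linarith)
  have h2 : Real.exp (-s) ≤ 1 - 66 / 100 * s := by
    have h3 := inv s hs0
    have h4 : 1 ≤ (1 - 66 / 100 * s) * (1 + s + s ^ 2 / 2) := by
      nlinarith [mul_nonneg hs0 (sub_nonneg.2 hs1), mul_nonneg (mul_nonneg hs0 hs0)
        (sub_nonneg.2 hs1)]
    have h5 : 0 < 1 + s + s ^ 2 / 2 := by positivity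
    by_contra hc
    push Not at hc
    nlinarith
  have h3 := Real.log_le_sub_one_of_pos
    (x := (3 + Real.exp (-(1 - Real.exp (-(2 * k))))) / 4) (by positivity)
  have h4 : 0 ≤ min 1 k := le_min zero_le_one hk
  have h5 : min 1 k / 8 ≤ 66 / 100 * s / 4 := by
    rw [hs]
    linarith
  linarith

theorem t_phi : S_PHI := by
  intro M hM
  have hM0 : 0 < M := by linarith
  have h := phi_key (Real.log_nonneg hM)
  have e : Real.exp (-(2 * Real.log M)) = 1 / M ^ 2 := by
    rw [Real.exp_neg, two_mul, Real.exp_add, Real.exp_log hM0, one_div, sq]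
  rw [e] at h
  exact h

end Pool.Agent.N527.L3
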